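import Pool.Agent.W2helper25.MF.Dist
import Pool.Agent.Y529.FJ.Ext

/-!
# Groups acting on trees with a homomorphism to `ℤ` the kernel of which acts acylindrically
-/

set_option autoImplicit false

namespace Pool.Agent.W2helper25.MF

open SimpleGraph
open Pool.Agent.Y110.FJ
open Pool.Agent.N509.TK
open Pool.Agent.N509.TX (AcylF C_edge C_stab of_fg)
open Pool.Agent.R941.FJ (C_equiv C_le C_cyc mem_sup_normal)

variable {C : ∀ (G : Type) [Group G], Prop}

section

variable {G V : Type} [Group G] [MulAction G V] {T : SimpleGraph V}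

/-- nontrivial elements of `ℤ` have infinite order -/
theorem z_ne {x : Multiplicative ℤ} (hx : x ≠ 1) {i : ℤ} (hi : i ≠ 0) : x ^ i ≠ 1 := by
  intro h
  have h1 : i * x.toAdd = 0 := by
    have := congrArg Multiplicative.toAdd h
    rwa [toAdd_zpow, toAdd_one, smul_eq_mul] at this
  rcases mul_eq_zero.1 h1 with h2 | h2
  · exact hi h2
  · exact hx (Multiplicative.toAdd.injective h2)

theorem z_inj {x : Multiplicative ℤ} (hx : x ≠ 1) {i j : ℤ} (h : x ^ i = x ^ j) : i = j := by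
  by_contra hne
  refine z_ne hx (sub_ne_zero.2 hne) ?_
  rw [zpow_sub, h, mul_inv_cancel]

/-- two edges at `w` are in the interior of the fixed tree of an element outside the kernel -/
def rel (T : SimpleGraph V) (χ : G →* Multiplicative ℤ) (k : ℕ) (w a b : V) : Prop :=
  a = b ∨ ∃ c : G, χ c ≠ 1 ∧ Inn T k c w a ∧ Inn T k c w b

theorem chi_conj (χ : G →* Multiplicative ℤ) (g c : G) : χ (g * c * g⁻¹) = χ c := by
  rw [map_mul, map_mul, map_inv, mul_comm (χ g), mul_inv_cancel_right]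

/-- the condition on the elements outside the kernel -/
def HB (T : SimpleGraph V) (χ : G →* Multiplicative ℤ) (k : ℕ) : Prop :=
  ∀ (c c' : G) (w a : V), χ c ≠ 1 → χ c' ≠ 1 → T.Adj w a → Inn T k c w a → Inn T k c' w a →
    ∃ i j : ℤ, i ≠ 0 ∧ c ^ i = c' ^ j

theorem rel_LR (hT : T.IsTree) (hact : ∀ (g : G) (u v : V), T.Adj u v → T.Adj (g • u) (g • v))
    (χ : G →* Multiplicative ℤ) (k : ℕ) (hb : HB T χ k) : LR G T (rel T χ k) where
  refl _ _ _ := Or.inl rfl
  symm w a b _ _ h := by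
    rcases h with h | ⟨c, h1, h2, h3⟩
    · exact Or.inl h.symm
    · exact Or.inr ⟨c, h1, h3, h2⟩
  trans w a b d _ hb' _ h h' := by
    rcases h with rfl | ⟨c, h1, h2, h3⟩
    · exact h'
    rcases h' with rfl | ⟨c', h1', h2', h3'⟩
    · exact Or.inr ⟨c, h1, h2, h3⟩
    obtain ⟨i, j, hi, hij⟩ := hb c c' w b h1 h1' hb' h3 h2'
    refine Or.inr ⟨c ^ i, ?_, h2.zpow i, ?_⟩
    · rw [map_zpow]
      exact z_ne h1 hi
    · rw [hij]
      exact h3'.zpow j
  eqv g w a b h := by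
    rcases h with rfl | ⟨c, h1, h2, h3⟩
    · exact Or.inl rfl
    · exact Or.inr ⟨g * c * g⁻¹, by rwa [chi_conj], h2.conj hT hact g, h3.conj hT hact g⟩

/-- edges which are not in the interior of a fixed tree -/
theorem gen_sing {χ : G →* Multiplicative ℤ} {k : ℕ} {p q : Dt T}
    (h : Relation.EqvGen (lk T (rel T χ k)) p q) :
    (q.1 = p.1 ∨ q.1 = p.1.swap) ∨ ((∃ c : G, χ c ≠ 1 ∧ Inn T k c p.1.1 p.1.2) ∧
      ∃ c : G, χ c ≠ 1 ∧ Inn T k c q.1.1 q.1.2) := by
  induction h with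
  | rel x y h =>
    rcases h with h | ⟨h1, h2⟩
    · exact Or.inl (Or.inr h)
    · rcases h2 with h2 | ⟨c, h3, h4, h5⟩
      · exact Or.inl (Or.inl (Prod.ext h1.symm h2.symm))
      · exact Or.inr ⟨⟨c, h3, h4⟩, c, h3, h1 ▸ h5⟩
  | refl x => exact Or.inl (Or.inl rfl)
  | symm x y _ ih =>
    rcases ih with (h | h) | ⟨h1, h2⟩
    · exact Or.inl (Or.inl h.symm)
    · exact Or.inl (Or.inr (by rw [h, Prod.swap_swap]))
    · exact Or.inr ⟨h2, h1⟩
  | trans x y z _ _ ih1 ih2 =>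
    rcases ih1 with (h | h) | ⟨h1, h2⟩
    · rw [h] at ih2
      exact ih2
    · rcases ih2 with (h' | h') | ⟨⟨c, h1', h1''⟩, h2'⟩
      · exact Or.inl (Or.inr (h'.trans h))
      · exact Or.inl (Or.inl (by rw [h', h, Prod.swap_swap]))
      · refine Or.inr ⟨⟨c, h1', ?_⟩, h2'⟩
        rw [h] at h1''
        exact h1''.symm
    · rcases ih2 with (h' | h') | ⟨h1', h2'⟩
      · exact Or.inr ⟨h1, by rw [h']; exact h2⟩
      · obtain ⟨c, h3, h4⟩ := h2
        exact Or.inr ⟨h1, c, h3, by rw [h']; exact h4.symm⟩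
      · exact Or.inr ⟨h1, h2'⟩

/-- along a cylinder one has the fixed tree of one element -/
theorem gen_pow {χ : G →* Multiplicative ℤ} {k : ℕ} (hb : HB T χ k) {p q : Dt T}
    (h : Relation.EqvGen (lk T (rel T χ k)) p q) :
    (∀ c : G, χ c ≠ 1 → Inn T k c p.1.1 p.1.2 → ∃ i : ℤ, i ≠ 0 ∧ Inn T k (c ^ i) q.1.1 q.1.2) ∧
    (∀ c : G, χ c ≠ 1 → Inn T k c q.1.1 q.1.2 → ∃ i : ℤ, i ≠ 0 ∧ Inn T k (c ^ i) p.1.1 p.1.2) := by
  have one : ∀ c : G, ∀ x : V × V, Inn T k c x.1 x.2 → ∃ i : ℤ, i ≠ 0 ∧ Inn T k (c ^ i) x.1 x.2 :=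
    fun c x h => ⟨1, one_ne_zero, by rwa [zpow_one]⟩
  induction h with
  | rel x y h =>
    rcases h with h | ⟨h1, h2⟩
    · refine ⟨fun c _ hc => one c y.1 ?_, fun c _ hc => one c x.1 ?_⟩
      · rw [h]
        exact hc.symm
      · rw [h] at hc
        exact hc.symm
    · rcases h2 with h2 | ⟨c', h3, h4, h5⟩
      · have hxy : x.1 = y.1 := Prod.ext h1 h2
        refine ⟨fun c _ hc => one c y.1 (hxy ▸ hc), fun c _ hc => one c x.1 (hxy ▸ hc)⟩
      · have h5' : Inn T k c' y.1.1 y.1.2 := h1 ▸ h5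
        refine ⟨fun c hχ hc => ?_, fun c hχ hc => ?_⟩
        · obtain ⟨i, j, hi, hij⟩ := hb c c' _ _ hχ h3 x.2 hc h4
          exact ⟨i, hi, by rw [hij]; exact h5'.zpow j⟩
        · obtain ⟨i, j, hi, hij⟩ := hb c c' _ _ hχ h3 y.2 hc h5'
          exact ⟨i, hi, by rw [hij]; exact h4.zpow j⟩
  | refl x => exact ⟨fun c _ hc => one c x.1 hc, fun c _ hc => one c x.1 hc⟩
  | symm x y _ ih => exact ⟨ih.2, ih.1⟩
  | trans x y z _ _ ih1 ih2 =>
    constructor
    · intro c hχ hc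
      obtain ⟨i, hi, h1⟩ := ih1.1 c hχ hc
      obtain ⟨j, hj, h2⟩ := ih2.1 (c ^ i) (by rw [map_zpow]; exact z_ne hχ hi) h1
      exact ⟨i * j, mul_ne_zero hi hj, by rwa [zpow_mul]⟩
    · intro c hχ hc
      obtain ⟨i, hi, h1⟩ := ih2.2 c hχ hc
      obtain ⟨j, hj, h2⟩ := ih1.2 (c ^ i) (by rw [map_zpow]; exact z_ne hχ hi) h1
      exact ⟨i * j, mul_ne_zero hi hj, by rwa [zpow_mul]⟩

/-- groups of elements which commute with powers of `c` -/
theorem C_comm (hC : ClosedE C) (χ : G →* Multiplicative ℤ)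
    (hZ : ∀ z : G, χ z ≠ 1 → C ↥(Subgroup.centralizer {z})) {c : G} (hc : χ c ≠ 1) (K : Subgroup G)
    (hK : ∀ g ∈ K, ∃ i : ℤ, i ≠ 0 ∧ g * c ^ i = c ^ i * g) : C K := by
  classical
  have fin : ∀ S : Finset K, ∃ i : ℤ, i ≠ 0 ∧ ∀ s ∈ S, (s : G) * c ^ i = c ^ i * s := by
    intro S
    induction S using Finset.induction with
    | empty => exact ⟨1, one_ne_zero, by simp⟩
    | insert s S _ ih =>
      obtain ⟨i, hi, h1⟩ := ih
      obtain ⟨j, hj, h2⟩ := hK s s.2
      refine ⟨i * j, mul_ne_zero hi hj, fun t ht => ?_⟩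
      rcases Finset.mem_insert.1 ht with rfl | ht
      · rw [mul_comm i j, zpow_mul]
        exact ((show Commute (t : G) (c ^ j) from h2).zpow_right i).eq
      · rw [zpow_mul]
        exact ((show Commute (t : G) (c ^ i) from h1 t ht).zpow_right j).eq
  refine of_fg hC fun H hH => ?_
  rw [Group.fg_iff_subgroup_fg] at hH
  obtain ⟨S, hS⟩ := hH
  obtain ⟨i, hi, h1⟩ := fin S
  have h2 : ∀ h ∈ H, (h : G) ∈ Subgroup.centralizer {c ^ i} := by
    intro h hh
    have hle : H ≤ (Subgroup.centralizer {c ^ i}).comap K.subtype := by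
      rw [← hS, Subgroup.closure_le]
      intro s hs
      show (s : G) ∈ Subgroup.centralizer {c ^ i}
      rw [Subgroup.mem_centralizer_singleton_iff]
      exact h1 s hs
    exact hle hh
  refine hC.base.of_injective _ _ (((K.subtype).comp H.subtype).codRestrict
    (Subgroup.centralizer {c ^ i}) fun h => h2 h h.2) ?_ (hZ (c ^ i) ?_)
  · intro a b hab
    have h3 := congrArg Subtype.val hab
    exact Subtype.ext (Subtype.ext h3)
  · rw [map_zpow]
    exact z_ne hc hi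

/-- stabilizers of cylinders -/
theorem C_cylinder (hC : ClosedE C) (hT : T.IsTree)
    (hact : ∀ (g : G) (u v : V), T.Adj u v → T.Adj (g • u) (g • v))
    (χ : G →* Multiplicative ℤ) (k : ℕ) (hb : HB T χ k)
    (hV : ∀ v : V, C ↥(MulAction.stabilizer G v))
    (hZ : ∀ z : G, χ z ≠ 1 → C ↥(Subgroup.centralizer {z})) (y : Cyl T (rel T χ k))
    (K : Subgroup G) (hK : ∀ g ∈ K, Pres hact y g) : C K := by
  obtain ⟨⟨⟨v0, a0⟩, h0⟩, hy⟩ := Quotient.exists_rep y
  have h0 : T.Adj v0 a0 := h0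
  have hy : cy (rel T χ k) h0 = y := hy
  have hgen : ∀ g ∈ K, Relation.EqvGen (lk T (rel T χ k)) (dt h0) (dt (hact g v0 a0 h0)) := by
    intro g hg
    have h1 := hK g hg v0 a0 h0 hy
    exact Quotient.exact (hy.trans h1.symm)
  by_cases hI : ∃ c : G, χ c ≠ 1 ∧ Inn T k c v0 a0
  · obtain ⟨c, hc, hc'⟩ := hI
    refine C_comm hC χ hZ hc K fun g hg => ?_
    obtain ⟨i, hi, h1⟩ := (gen_pow hb (hgen g hg)).1 c hc hc'
    have h2 : Inn T k (g * c * g⁻¹) (g • v0) (g • a0) := hc'.conj hT hact g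
    obtain ⟨a, b, ha, hab⟩ := hb (g * c * g⁻¹) (c ^ i) _ _ (by rwa [chi_conj])
      (by rw [map_zpow]; exact z_ne hc hi) (hact g v0 a0 h0) h2 h1
    have h3 : χ c ^ a = χ c ^ (i * b) := by
      have := congrArg χ hab
      rwa [map_zpow, chi_conj, map_zpow, map_zpow, ← zpow_mul] at this
    have h4 := z_inj hc h3
    refine ⟨a, ha, ?_⟩
    rw [conj_zpow, ← zpow_mul, ← h4, mul_inv_eq_iff_eq_mul] at hab
    exact hab
  · refine C_edge hC v0 a0 (hV v0) K fun g hg => ?_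
    rcases gen_sing (hgen g hg) with (h1 | h1) | ⟨h1, _⟩
    · exact Or.inl ⟨congrArg Prod.fst h1, congrArg Prod.snd h1⟩
    · exact Or.inr ⟨congrArg Prod.fst h1, congrArg Prod.snd h1⟩
    · exact absurd h1 hI

/-- the case of finitely generated groups -/
theorem core_fg (hC : ClosedE C) (hA : AcylF C) (hfg : Group.FG G) (hT : T.IsTree)
    (hact : ∀ (g : G) (u v : V), T.Adj u v → T.Adj (g • u) (g • v))
    (χ : G →* Multiplicative ℤ) (k n : ℕ)
    (ha : ∀ u v, k ≤ T.dist u v → ∀ F : Finset G, (∀ g ∈ F, χ g = 1 ∧ g • u = u ∧ g • v = v) →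
      F.card ≤ n)
    (hb : HB T χ k) (hV : ∀ v : V, C ↥(MulAction.stabilizer G v))
    (hZ : ∀ z : G, χ z ≠ 1 → C ↥(Subgroup.centralizer {z})) : C G := by
  have hr := rel_LR hT hact χ k hb
  have hB := BB_tree hT hr
  let _ := cyAct hact hr
  have hcy : ∀ (g : G) {v a : V} (h : T.Adj v a), g • (cy (rel T χ k) h) =
      cy (rel T χ k) (hact g v a h) := fun g {v a} h => rfl
  refine hA G (V ⊕ Cyl T (rel T χ k)) (BB T (rel T χ k)) hfg hB ?_ ?_ ⟨4 * k + 5, n, ?_⟩ ?_
  · intro g x x' h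
    have hmem : ∀ (v : V) (y : Cyl T (rel T χ k)), Mem y v → Mem (g • y) (g • v) := by
      rintro v _ ⟨a, ha, rfl⟩
      exact ⟨g • a, hact g v a ha, (hcy g ha).symm⟩
    rcases BB_cases h with ⟨v, y, rfl, rfl, h1⟩ | ⟨v, y, rfl, rfl, h1⟩
    · exact Or.inl ⟨g • v, g • y, rfl, rfl, hmem v y h1⟩
    · exact Or.inr ⟨g • v, g • y, rfl, rfl, hmem v y h1⟩
  · rintro g x x' h ⟨h1, _⟩
    rcases BB_cases h with ⟨v, y, rfl, rfl, _⟩ | ⟨v, y, rfl, rfl, _⟩
    · exact absurd h1 (by simp)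
    · exact absurd h1 (by simp)
  · intro x x' p hp hlen F hF
    obtain ⟨u, v, hu, hv, huv⟩ := ends hB p hp (4 * k + 3) (by omega)
    have hfu : ∀ g ∈ F, g • u = u := fun g hg => Sum.inl_injective (hF g hg _ hu)
    have hfv : ∀ g ∈ F, g • v = v := fun g hg => Sum.inl_injective (hF g hg _ hv)
    have hone : ∀ g ∈ F, χ g = 1 := by
      intro g hg
      by_contra hne
      have h1 := far (k := k) hT hB.1 g (fun w a b _ _ h h' => Or.inr ⟨g, hne, h, h'⟩)
        (hfu g hg) (hfv g hg)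
      omega
    refine ha u v ?_ F fun g hg => ⟨hone g hg, hfu g hg, hfv g hg⟩
    have h1 := BB_dist_le (r := rel T χ k) hT hB.1 u v
    omega
  · rintro (v | y)
    · refine C_le hC.base (H := MulAction.stabilizer G (Sum.inl v : V ⊕ Cyl T (rel T χ k)))
        (K := MulAction.stabilizer G v) ?_ (hV v)
      intro g hg
      exact Sum.inl_injective hg
    · refine C_cylinder hC hT hact χ k hb hV hZ y _ ?_
      intro g hg v a h hya
      have h1 : g • y = y := Sum.inr_injective hg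
      rw [← hcy g h, hya, h1]

/-- all groups -/
theorem core (hC : ClosedE C) (hA : AcylF C) (hT : T.IsTree)
    (hact : ∀ (g : G) (u v : V), T.Adj u v → T.Adj (g • u) (g • v))
    (χ : G →* Multiplicative ℤ) (k n : ℕ)
    (ha : ∀ u v, k ≤ T.dist u v → ∀ F : Finset G, (∀ g ∈ F, χ g = 1 ∧ g • u = u ∧ g • v = v) →
      F.card ≤ n)
    (hb : HB T χ k) (hV : ∀ v : V, C ↥(MulAction.stabilizer G v))
    (hZ : ∀ z : G, χ z ≠ 1 → C ↥(Subgroup.centralizer {z})) : C G := by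
  classical
  refine of_fg hC fun H hfg => ?_
  refine core_fg (G := H) hC hA hfg hT (fun g u v h => hact g u v h) (χ.comp H.subtype) k n
    ?_ ?_ (fun v => C_stab hC H v (hV v)) ?_
  · intro u v huv F hF
    have h1 := ha u v huv (F.map ⟨Subtype.val, Subtype.val_injective⟩) (by
      intro g hg
      rw [Finset.mem_map] at hg
      obtain ⟨x, hx, rfl⟩ := hg
      exact hF x hx)
    rwa [Finset.card_map] at h1
  · intro c c' w a hc hc' hwa h1 h2
    obtain ⟨i, j, hi, hij⟩ := hb c c' w a hc hc' hwa h1 h2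
    exact ⟨i, j, hi, Subtype.ext hij⟩
  · intro z hz
    refine hC.base.of_injective _ _ (((H.subtype).comp (Subgroup.subtype
      (Subgroup.centralizer {z}))).codRestrict (Subgroup.centralizer {(z : G)}) ?_) ?_ (hZ z hz)
    · rintro ⟨x, hx⟩
      rw [Subgroup.mem_centralizer_singleton_iff] at hx
      show (x : G) ∈ Subgroup.centralizer {(z : G)}
      rw [Subgroup.mem_centralizer_singleton_iff]
      exact congrArg Subtype.val hx
    · intro a b hab
      have h3 := congrArg Subtype.val hab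
      exact Subtype.ext (Subtype.ext h3)

end

end Pool.Agent.W2helper25.MF
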