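import Pool.Agent.N509.TX.Fg
import Pool.Agent.N509.TK.Om

/-!
# Edges in the interior of the fixed tree of an element
-/

set_option autoImplicit false

namespace Pool.Agent.W2helper25.MF

open SimpleGraph
open Pool.Agent.N509.TK

variable {G V : Type} [Group G] [MulAction G V] {T : SimpleGraph V} {r : V → V → V → Prop}

theorem dist_smul_le (hT : T.IsTree)
    (hact : ∀ (g : G) (u v : V), T.Adj u v → T.Adj (g • u) (g • v)) (g : G) (u v : V) :
    T.dist (g • u) (g • v) ≤ T.dist u v := by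
  obtain ⟨p, hp⟩ := (hT.1 u v).exists_walk_length_eq_dist
  have h := dist_le (p.map (Pool.Agent.N24.TR.shift hact g))
  rw [Walk.length_map, hp] at h
  exact h

theorem dist_smul (hT : T.IsTree)
    (hact : ∀ (g : G) (u v : V), T.Adj u v → T.Adj (g • u) (g • v)) (g : G) (u v : V) :
    T.dist (g • u) (g • v) = T.dist u v := by
  refine le_antisymm (dist_smul_le hT hact g u v) ?_
  have h := dist_smul_le hT hact g⁻¹ (g • u) (g • v)
  rwa [inv_smul_smul, inv_smul_smul] at h

/-- `c` fixes two vertices such that the edge from `w` to `a` is on the path between them and at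
distance at least `k` from both -/
def Inn (T : SimpleGraph V) (k : ℕ) (c : G) (w a : V) : Prop :=
  ∃ u v : V, c • u = u ∧ c • v = v ∧ k ≤ T.dist u w ∧ k ≤ T.dist a v ∧
    T.dist u v = T.dist u w + 1 + T.dist a v

variable {k : ℕ}

theorem Inn.symm {c : G} {w a : V} (h : Inn T k c w a) : Inn T k c a w := by
  obtain ⟨u, v, h1, h2, h3, h4, h5⟩ := h
  refine ⟨v, u, h2, h1, ?_, ?_, ?_⟩
  · rwa [dist_comm]
  · rwa [dist_comm]
  · rw [dist_comm, h5, dist_comm (u := v), dist_comm (u := w)]
    omega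

theorem fix_zpow {c : G} {u : V} (h : c • u = u) (i : ℤ) : c ^ i • u = u :=
  MulAction.mem_stabilizer_iff.1 (Subgroup.zpow_mem _ (MulAction.mem_stabilizer_iff.2 h) i)

theorem Inn.zpow {c : G} {w a : V} (h : Inn T k c w a) (i : ℤ) : Inn T k (c ^ i) w a := by
  obtain ⟨u, v, h1, h2, h3⟩ := h
  exact ⟨u, v, fix_zpow h1 i, fix_zpow h2 i, h3⟩

theorem Inn.conj (hT : T.IsTree)
    (hact : ∀ (g : G) (u v : V), T.Adj u v → T.Adj (g • u) (g • v)) (g : G) {c : G} {w a : V}
    (h : Inn T k c w a) : Inn T k (g * c * g⁻¹) (g • w) (g • a) := by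
  obtain ⟨u, v, h1, h2, h3⟩ := h
  refine ⟨g • u, g • v, ?_, ?_, ?_⟩
  · rw [mul_smul, mul_smul, inv_smul_smul, h1]
  · rw [mul_smul, mul_smul, inv_smul_smul, h2]
  · rwa [dist_smul hT hact, dist_smul hT hact, dist_smul hT hact]

/-! ### distances in the tree of cylinders -/

theorem BB_dist_adj {a b : V} (h : T.Adj a b) :
    (BB T r).dist (Sum.inl a) (Sum.inl b) ≤ 2 := by
  have h1 : (BB T r).Adj (Sum.inl a) (Sum.inr (cy r h)) := BB_adj.2 (Mem_cy h)
  have h2 : (BB T r).Adj (Sum.inl b) (Sum.inr (cy r h)) := BB_adj.2 (Mem_cy' h)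
  exact dist_le (Walk.cons h1 (Walk.cons h2.symm Walk.nil))

theorem BB_dist_mem {y : Cyl T r} {a b : V} (ha : Mem y a) (hb : Mem y b) :
    (BB T r).dist (Sum.inl a) (Sum.inl b) ≤ 2 := by
  have h1 : (BB T r).Adj (Sum.inl a) (Sum.inr y) := BB_adj.2 ha
  have h2 : (BB T r).Adj (Sum.inl b) (Sum.inr y) := BB_adj.2 hb
  exact dist_le (Walk.cons h1 (Walk.cons h2.symm Walk.nil))

theorem BB_dist_walk (hB : (BB T r).Connected) {a b : V} (p : T.Walk a b) :
    (BB T r).dist (Sum.inl a) (Sum.inl b) ≤ 2 * p.length := by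
  induction p with
  | nil => simp
  | @cons x y z h q ih =>
    have h1 := BB_dist_adj (r := r) h
    have h2 := hB.dist_triangle (u := Sum.inl x) (v := Sum.inl y) (w := Sum.inl z)
    rw [Walk.length_cons]
    omega

theorem BB_dist_le (hT : T.IsTree) (hB : (BB T r).Connected) (a b : V) :
    (BB T r).dist (Sum.inl a) (Sum.inl b) ≤ 2 * T.dist a b := by
  obtain ⟨p, hp⟩ := (hT.1 a b).exists_walk_length_eq_dist
  rw [← hp]
  exact BB_dist_walk hB p

/-- geodesics -/
theorem geo (hT : T.IsTree) {u v : V} (p : T.Walk u v) (hp : p.length = T.dist u v) (i : ℕ)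
    (hi : i ≤ T.dist u v) :
    T.dist u (p.getVert i) = i ∧ T.dist (p.getVert i) v = T.dist u v - i := by
  have h1 := dist_le (p.take i)
  have h2 := dist_le (p.drop i)
  rw [Walk.take_length] at h1
  rw [Walk.drop_length] at h2
  have h3 := hT.1.dist_triangle (u := u) (v := p.getVert i) (w := v)
  have h4 : min i p.length ≤ i := min_le_left _ _
  omega

/-- an element such that the edges in the interior of its fixed tree are equivalent -/
theorem far (hT : T.IsTree) (hB : (BB T r).Connected) (c : G)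
    (hc : ∀ w a b, T.Adj w a → T.Adj w b → Inn T k c w a → Inn T k c w b → r w a b) {u v : V}
    (hu : c • u = u) (hv : c • v = v) :
    (BB T r).dist (Sum.inl u) (Sum.inl v) ≤ 4 * k + 2 := by
  obtain ⟨p, hp⟩ := (hT.1 u v).exists_walk_length_eq_dist
  obtain ⟨d, hd⟩ : ∃ d, d = T.dist u v := ⟨_, rfl⟩
  have hg := geo hT p hp
  rw [← hd] at hg
  by_cases hk : d ≤ 2 * k
  · have := BB_dist_le (r := r) hT hB u v
    omega
  push Not at hk
  have hadj : ∀ i, i < d → T.Adj (p.getVert i) (p.getVert (i + 1)) := fun i hi =>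
    p.adj_getVert_succ (by omega)
  have hinn : ∀ i, k ≤ i → i + 1 + k ≤ d → Inn T k c (p.getVert i) (p.getVert (i + 1)) := by
    intro i h1 h2
    have g1 := hg i (by omega)
    have g2 := hg (i + 1) (by omega)
    refine ⟨u, v, hu, hv, ?_, ?_, ?_⟩
    · omega
    · omega
    · omega
  have hcy : ∀ i, k ≤ i → (hi : i + 1 + k ≤ d) →
      cy r (hadj i (by omega)) = cy r (hadj k (by omega)) := by
    intro i h1
    induction i, h1 using Nat.le_induction with
    | base => intro _; rfl
    | succ i h1 ih =>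
      intro h2
      rw [← ih (by omega), ← cy_symm (hadj i (by omega))]
      exact cy_rel _ _ (hc _ _ _ (hadj (i + 1) (by omega)) (hadj i (by omega)).symm
        (hinn (i + 1) (by omega) h2) (hinn i h1 (by omega)).symm)
  have m1 : Mem (cy r (hadj k (by omega))) (p.getVert k) := Mem_cy _
  have m2 : Mem (cy r (hadj k (by omega))) (p.getVert (d - k)) := by
    have h := hcy (d - k - 1) (by omega) (by omega)
    have h2 : Mem (cy r (hadj (d - k - 1) (by omega))) (p.getVert (d - k - 1 + 1)) := Mem_cy' _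
    rw [h, show d - k - 1 + 1 = d - k by omega] at h2
    exact h2
  have h1 := BB_dist_le (r := r) hT hB u (p.getVert k)
  have h2 := BB_dist_mem m1 m2
  have h3 := BB_dist_le (r := r) hT hB (p.getVert (d - k)) v
  have h4 := hB.dist_triangle (u := Sum.inl u) (v := Sum.inl (p.getVert k)) (w := Sum.inl v)
  have h5 := hB.dist_triangle (u := Sum.inl (p.getVert k)) (v := Sum.inl (p.getVert (d - k)))
    (w := Sum.inl v)
  have g1 := hg k (by omega)
  have g2 := hg (d - k) (by omega)
  omega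

theorem start {x x' : V ⊕ Cyl T r} (p : (BB T r).Walk x x') (hp : p.IsPath) (m : ℕ)
    (hm : m + 1 ≤ p.length) :
    ∃ (u : V) (q : (BB T r).Walk (Sum.inl u) x'), q.IsPath ∧ m ≤ q.length ∧
      ∀ z ∈ q.support, z ∈ p.support := by
  cases p with
  | nil => simp at hm
  | @cons _ x1 _ h p =>
    rcases BB_cases h with ⟨v, y, rfl, rfl, _⟩ | ⟨v, y, rfl, rfl, _⟩
    · exact ⟨v, Walk.cons h p, hp, by omega, fun z hz => hz⟩
    · refine ⟨v, p, hp.of_cons, ?_, fun z hz => ?_⟩
      · rw [Walk.length_cons] at hm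
        omega
      · rw [Walk.support_cons]
        exact List.mem_cons_of_mem _ hz

theorem path_dist {W : Type} {S : SimpleGraph W} (hS : S.IsTree) {u v : W} (p : S.Walk u v)
    (hp : p.IsPath) : S.dist u v = p.length := by
  obtain ⟨q, hq⟩ := (hS.1 u v).exists_walk_length_eq_dist
  have h1 : q.IsPath := q.isPath_of_length_eq_dist hq
  have h2 := hS.isAcyclic.path_unique ⟨p, hp⟩ ⟨q, h1⟩
  have h3 : p = q := congrArg Subtype.val h2
  rw [h3, hq]

theorem ends (hB : (BB T r).IsTree) {x x' : V ⊕ Cyl T r} (p : (BB T r).Walk x x') (hp : p.IsPath)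
    (m : ℕ) (hm : m + 2 ≤ p.length) :
    ∃ u v : V, (Sum.inl u ∈ p.support) ∧ (Sum.inl v ∈ p.support) ∧
      m ≤ (BB T r).dist (Sum.inl u) (Sum.inl v) := by
  obtain ⟨u, q, hq, h1, h2⟩ := start p hp (m + 1) (by omega)
  obtain ⟨v, q', hq', h3, h4⟩ := start q.reverse hq.reverse m (by rw [Walk.length_reverse]; omega)
  refine ⟨u, v, h2 _ (Walk.start_mem_support _), h2 _ ?_, ?_⟩
  · have := h4 _ (Walk.start_mem_support _)
    rwa [Walk.support_reverse, List.mem_reverse] at this
  · rw [dist_comm, path_dist hB q' hq']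
    exact h3

end Pool.Agent.W2helper25.MF
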