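import Pool.Agent.W2helper25.MF.Core

/-!
# Extensions whose kernel acts acylindrically on a tree
-/

set_option autoImplicit false

namespace Pool.Agent.W2helper25.MF

open SimpleGraph
open Pool.Agent.Y110.FJ
open Pool.Agent.N509.TK
open Pool.Agent.N509.TX (AcylF C_edge C_stab of_fg)
open Pool.Agent.R941.FJ (C_equiv C_le C_cyc mem_sup_normal)

variable {C : ∀ (G : Type) [Group G], Prop}

section

variable {G V : Type} [Group G] [MulAction G V] {T : SimpleGraph V}

/-- centralizers of elements outside the kernel -/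
theorem C_centr (hC : ClosedE C) (χ : G →* Multiplicative ℤ) (hN : C χ.ker) {z : G}
    (hz : χ z ≠ 1) : C ↥(Subgroup.centralizer {z}) := by
  obtain ⟨Z, hZ⟩ : ∃ Z : Subgroup G, Z = Subgroup.centralizer {z} := ⟨_, rfl⟩
  rw [← hZ]
  have hzm : z ∈ Z := by
    rw [hZ, Subgroup.mem_centralizer_singleton_iff]
  have hcomm : ∀ x : Z, (x : G) * z = z * x := by
    rintro ⟨x, hx⟩
    rwa [hZ, Subgroup.mem_centralizer_singleton_iff] at hx
  obtain ⟨χ', hχ'⟩ : ∃ χ' : Z →* Multiplicative ℤ, χ' = χ.comp Z.subtype := ⟨_, rfl⟩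
  have hcom : ∀ (m : χ'.ker) (n : Multiplicative ℤ),
      Commute (χ'.ker.subtype m) (zpowersHom Z ⟨z, hzm⟩ n) := by
    intro m n
    have h1 : Commute (χ'.ker.subtype m) (⟨z, hzm⟩ : Z) := Subtype.ext (hcomm m)
    exact h1.zpow_right n.toAdd
  obtain ⟨f, hf⟩ : ∃ f : χ'.ker × Multiplicative ℤ →* Z,
      f = (χ'.ker.subtype).noncommCoprod (zpowersHom Z ⟨z, hzm⟩) hcom := ⟨_, rfl⟩
  have hfx : ∀ d m, f (d, m) = (d : Z) * (⟨z, hzm⟩ : Z) ^ m.toAdd := by
    intro d m
    rw [hf]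
    rfl
  have hcz : χ' ⟨z, hzm⟩ = χ z := by rw [hχ']; rfl
  have hinj : Function.Injective f := by
    rw [injective_iff_map_eq_one]
    rintro ⟨d, m⟩ h
    rw [hfx] at h
    have h1 : χ z ^ m.toAdd = 1 := by
      have := congrArg χ' h
      rwa [map_mul, map_zpow, map_one, hcz, show χ' (d : Z) = 1 from d.2, one_mul] at this
    have h2 : m.toAdd = 0 := by
      by_contra hne
      exact z_ne hz hne h1
    rw [h2, zpow_zero, mul_one] at h
    exact Prod.ext (Subtype.ext h) (Multiplicative.toAdd.injective h2)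
  have hD : C χ'.ker := by
    refine hC.base.of_injective _ _ ((Z.subtype.comp χ'.ker.subtype).codRestrict χ.ker ?_) ?_ hN
    · rintro ⟨x, hx⟩
      rw [hχ'] at hx
      exact hx
    · intro a b hab
      have h3 := congrArg Subtype.val hab
      exact Subtype.ext (Subtype.ext h3)
  have hR : C f.range :=
    C_equiv hC.base (MonoidHom.ofInjective hinj).symm (hC.base.prod _ _ hD hC.base.int)
  refine hC.base.finiteIndex Z f.range ?_ hR
  have hfi : (Subgroup.zpowers (χ z)).FiniteIndex := by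
    have h : (AddSubgroup.zmultiples (Multiplicative.toAdd (χ z))).FiniteIndex := ⟨by
      rw [Int.index_zmultiples]
      simpa using fun h => hz (Multiplicative.toAdd.injective h)⟩
    exact ⟨h.index_ne_zero⟩
  have hfi2 : ((Subgroup.zpowers (χ z)).comap χ').FiniteIndex := ⟨by
    rw [Subgroup.index_comap]
    have : ((Subgroup.zpowers (χ z)).subgroupOf χ'.range).FiniteIndex := inferInstance
    exact this.index_ne_zero⟩
  refine @Subgroup.finiteIndex_of_le _ _ _ _ hfi2 ?_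
  intro x hx
  obtain ⟨m, hm⟩ := Subgroup.mem_zpowers_iff.1 (Subgroup.mem_comap.1 hx)
  have hk : x * (⟨z, hzm⟩ : Z) ^ (-m) ∈ χ'.ker := by
    rw [MonoidHom.mem_ker, map_mul, map_zpow, hcz, ← hm, ← zpow_add, add_neg_cancel, zpow_zero]
  refine ⟨(⟨_, hk⟩, Multiplicative.ofAdd m), ?_⟩
  rw [hfx]
  show x * (⟨z, hzm⟩ : Z) ^ (-m) * (⟨z, hzm⟩ : Z) ^ m = x
  rw [mul_assoc, ← zpow_add, neg_add_cancel, zpow_zero, mul_one]

/-- **groups with a homomorphism to `ℤ` the kernel of which acts acylindrically** -/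
theorem main (hC : ClosedE C) (hA : AcylF C) (hT : T.IsTree)
    (hact : ∀ (g : G) (u v : V), T.Adj u v → T.Adj (g • u) (g • v))
    (χ : G →* Multiplicative ℤ) (k n : ℕ)
    (ha : ∀ u v, k ≤ T.dist u v → ∀ F : Finset G, (∀ g ∈ F, χ g = 1 ∧ g • u = u ∧ g • v = v) →
      F.card ≤ n)
    (hb : HB T χ k) (hV : ∀ v : V, C ↥(MulAction.stabilizer G v)) : C G := by
  classical
  have hN : C χ.ker := by
    refine core (G := χ.ker) hC hA hT (fun g u v h => hact g u v h) 1 k n ?_ ?_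
      (fun v => C_stab hC χ.ker v (hV v)) ?_
    · intro u v huv F hF
      have h1 := ha u v huv (F.map ⟨Subtype.val, Subtype.val_injective⟩) (by
        intro g hg
        rw [Finset.mem_map] at hg
        obtain ⟨x, hx, rfl⟩ := hg
        exact ⟨x.2, (hF x hx).2⟩)
      rwa [Finset.card_map] at h1
    · intro c _ _ _ h
      exact absurd rfl h
    · intro z h
      exact absurd rfl h
  exact core hC hA hT hact χ k n ha hb hV fun z hz => C_centr hC χ hN hz

/-- a homomorphism to `ℤ` with kernel `N` -/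
theorem exists_chi (N : Subgroup G) [N.Normal] (g : G) (hg : ∀ n : ℕ, 0 < n → g ^ n ∉ N) :
    ∃ χ : ↥(N ⊔ Subgroup.zpowers g) →* Multiplicative ℤ, ∀ x, χ x = 1 ↔ (x : G) ∈ N := by
  obtain ⟨ψ, hψ⟩ : ∃ ψ : Multiplicative ℤ →* G ⧸ N, ψ = zpowersHom (G ⧸ N) (g : G ⧸ N) := ⟨_, rfl⟩
  have hψx : ∀ m : Multiplicative ℤ, ψ m = ((g ^ m.toAdd : G) : G ⧸ N) := by
    intro m
    rw [hψ, QuotientGroup.mk_zpow]
    rfl
  have hinj : Function.Injective ψ := by
    rw [injective_iff_map_eq_one]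
    intro m hm
    rw [hψx, QuotientGroup.eq_one_iff] at hm
    by_contra hne
    have h0 : m.toAdd ≠ 0 := fun h => hne (Multiplicative.toAdd.injective h)
    refine hg m.toAdd.natAbs (Int.natAbs_pos.2 h0) ?_
    rcases Int.natAbs_eq m.toAdd with h | h
    · rwa [← zpow_natCast, ← h]
    · rw [← zpow_natCast, show (m.toAdd.natAbs : ℤ) = - m.toAdd by omega, zpow_neg]
      exact N.inv_mem hm
  have hmem : ∀ x : ↥(N ⊔ Subgroup.zpowers g), ((x : G) : G ⧸ N) ∈ ψ.range := by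
    rintro ⟨x, hx⟩
    rw [mem_sup_normal] at hx
    obtain ⟨n, hn, y, hy, rfl⟩ := hx
    obtain ⟨m, rfl⟩ := Subgroup.mem_zpowers_iff.1 hy
    refine ⟨Multiplicative.ofAdd m, ?_⟩
    rw [hψx, QuotientGroup.mk_mul, (QuotientGroup.eq_one_iff n).2 hn, one_mul]
    rfl
  obtain ⟨ρ, hρ⟩ : ∃ ρ : ↥(N ⊔ Subgroup.zpowers g) →* ψ.range, ∀ x, (ρ x : G ⧸ N) = (x : G) :=
    ⟨((QuotientGroup.mk' N).comp (Subgroup.subtype _)).codRestrict ψ.range hmem, fun _ => rfl⟩
  refine ⟨(MonoidHom.ofInjective hinj).symm.toMonoidHom.comp ρ, fun x => ?_⟩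
  rw [← QuotientGroup.eq_one_iff, ← hρ]
  constructor
  · intro h
    have h1 : (MonoidHom.ofInjective hinj).symm (ρ x) = 1 := h
    rw [MulEquiv.map_eq_one_iff] at h1
    rw [h1]
    rfl
  · intro h
    have h1 : ρ x = 1 := Subtype.ext h
    show (MonoidHom.ofInjective hinj).symm (ρ x) = 1
    rw [h1, map_one]

/-- the condition on the elements of infinite order modulo `N` -/
def HN (T : SimpleGraph V) (N : Subgroup G) (k : ℕ) : Prop :=
  ∀ (c c' : G) (w a : V), (∀ m : ℕ, 0 < m → c ^ m ∉ N) → (∀ m : ℕ, 0 < m → c' ^ m ∉ N) →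
    (∃ i j : ℤ, i ≠ 0 ∧ j ≠ 0 ∧ c ^ i * c' ^ j ∈ N) → T.Adj w a → Inn T k c w a → Inn T k c' w a →
    ∃ i j : ℤ, i ≠ 0 ∧ c ^ i = c' ^ j

/-- **extensions whose kernel acts acylindrically** -/
theorem ext (hC : ClosedE C) (hA : AcylF C) (hT : T.IsTree)
    (hact : ∀ (g : G) (u v : V), T.Adj u v → T.Adj (g • u) (g • v))
    (N : Subgroup G) [N.Normal] (hQ : C (G ⧸ N)) (k n : ℕ)
    (ha : ∀ u v, k ≤ T.dist u v → ∀ F : Finset G, (∀ g ∈ F, g ∈ N ∧ g • u = u ∧ g • v = v) →
      F.card ≤ n)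
    (hb : HN T N k)
    (hV : ∀ (v : V) (g : G), C ↥((N ⊔ Subgroup.zpowers g) ⊓ MulAction.stabilizer G v)) : C G := by
  classical
  have hNN : C N := by
    refine core (G := N) hC hA hT (fun g u v h => hact g u v h) 1 k n ?_ ?_ (fun v => ?_) ?_
    · intro u v huv F hF
      have h1 := ha u v huv (F.map ⟨Subtype.val, Subtype.val_injective⟩) (by
        intro g hg
        rw [Finset.mem_map] at hg
        obtain ⟨x, hx, rfl⟩ := hg
        exact ⟨x.2, (hF x hx).2⟩)
      rwa [Finset.card_map] at h1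
    · intro c _ _ _ h
      exact absurd rfl h
    · refine hC.base.of_injective _ _ ((N.subtype.comp (Subgroup.subtype
        (MulAction.stabilizer N v))).codRestrict
        ((N ⊔ Subgroup.zpowers (1 : G)) ⊓ MulAction.stabilizer G v) ?_) ?_ (hV v 1)
      · rintro ⟨x, hx⟩
        exact ⟨(le_sup_left : N ≤ _) x.2, hx⟩
      · intro a b hab
        have h3 := congrArg Subtype.val hab
        exact Subtype.ext (Subtype.ext h3)
    · intro z h
      exact absurd rfl h
  refine Pool.Agent.Y529.FJ.t_ext C hC G N hNN hQ fun g hg => ?_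
  obtain ⟨χ, hχ⟩ := exists_chi N g hg
  have hinf : ∀ c : ↥(N ⊔ Subgroup.zpowers g), χ c ≠ 1 → ∀ m : ℕ, 0 < m → (c : G) ^ m ∉ N := by
    intro c hc m hm h
    have h1 : χ (c ^ m) = 1 := (hχ _).2 h
    rw [map_pow, ← zpow_natCast] at h1
    exact z_ne hc (by exact_mod_cast hm.ne') h1
  refine main (G := ↥(N ⊔ Subgroup.zpowers g)) hC hA hT (fun g u v h => hact g u v h) χ k n
    ?_ ?_ ?_
  · intro u v huv F hF
    have h1 := ha u v huv (F.map ⟨Subtype.val, Subtype.val_injective⟩) (by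
      intro g hg
      rw [Finset.mem_map] at hg
      obtain ⟨x, hx, rfl⟩ := hg
      exact ⟨(hχ x).1 (hF x hx).1, (hF x hx).2⟩)
    rwa [Finset.card_map] at h1
  · intro c c' w a hc hc' hwa h1 h2
    have hcm : ∃ i j : ℤ, i ≠ 0 ∧ j ≠ 0 ∧ (c : G) ^ i * (c' : G) ^ j ∈ N := by
      refine ⟨(χ c').toAdd, -(χ c).toAdd, ?_, ?_, ?_⟩
      · exact fun h => hc' (Multiplicative.toAdd.injective h)
      · exact neg_ne_zero.2 fun h => hc (Multiplicative.toAdd.injective h)
      · refine (hχ (c ^ (χ c').toAdd * c' ^ (-(χ c).toAdd))).1 ?_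
        rw [map_mul, map_zpow, map_zpow]
        apply Multiplicative.toAdd.injective
        rw [toAdd_mul, toAdd_zpow, toAdd_zpow, toAdd_one, smul_eq_mul, smul_eq_mul]
        ring
    obtain ⟨i, j, hi, hij⟩ := hb c c' w a (hinf c hc) (hinf c' hc') hcm hwa h1 h2
    exact ⟨i, j, hi, Subtype.ext hij⟩
  · intro v
    refine hC.base.of_injective _ _ (((Subgroup.subtype (N ⊔ Subgroup.zpowers g)).comp
      (Subgroup.subtype (MulAction.stabilizer ↥(N ⊔ Subgroup.zpowers g) v))).codRestrict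
      ((N ⊔ Subgroup.zpowers g) ⊓ MulAction.stabilizer G v) ?_) ?_ (hV v g)
    · rintro ⟨x, hx⟩
      exact ⟨x.2, hx⟩
    · intro a b hab
      have h3 := congrArg Subtype.val hab
      exact Subtype.ext (Subtype.ext h3)

end

end Pool.Agent.W2helper25.MF
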